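import Pool.Agent.H20.MT.Stmts
import Pool.Agent.H20.MT.Rho

/-!
# Project MTA, module RHOF: Fourier representation of the weight
-/

set_option autoImplicit false

namespace MTA

theorem RHOF (h : S_FOUR) : S_RHOF := by
  have hc : ContDiff ℝ 2 (fun v => ((rho v : ℝ) : ℂ)) := by
    have h1 : ContDiff ℝ 2 rho := contDiff_infty.1 rho_contDiff 2
    exact Complex.ofRealCLM.contDiff.comp h1
  have hs : HasCompactSupport (fun v => ((rho v : ℝ) : ℂ)) := by
    have h1 := rho_hasCompactSupport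
    exact h1.comp_left (g := fun x : ℝ => (x : ℂ)) (by simp)
  obtain ⟨g, h1, h2, h3⟩ := h (fun v => ((rho v : ℝ) : ℂ)) hc hs
  refine ⟨g, (∫ v, ‖((rho v : ℝ) : ℂ)‖) +
    (∫ v, ‖iteratedDeriv 2 (fun v => ((rho v : ℝ) : ℂ)) v‖) + 1, ?_, h1, ?_, h3⟩
  · have a1 : 0 ≤ ∫ v, ‖((rho v : ℝ) : ℂ)‖ :=
      MeasureTheory.integral_nonneg (fun v => norm_nonneg _)
    have a2 : 0 ≤ ∫ v, ‖iteratedDeriv 2 (fun v => ((rho v : ℝ) : ℂ)) v‖ :=
      MeasureTheory.integral_nonneg (fun v => norm_nonneg _)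
    linarith
  · intro u
    refine (h2 u).trans ?_
    have hu : 0 < 1 + u ^ 2 := by positivity
    exact div_le_div_of_nonneg_right (by linarith) hu.le

end MTA
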