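import Pool.Agent.H20.MT.Stmts

/-!
# Project MTA, module VAU: Vaughan's identity
-/

set_option autoImplicit false

namespace MTA

open Finset

private noncomputable def vau_LU (U : ℝ) : ArithmeticFunction ℝ :=
  ⟨fun n => if (n : ℝ) ≤ U then ArithmeticFunction.vonMangoldt n else 0, by simp⟩

private noncomputable def vau_mV (V : ℝ) : ArithmeticFunction ℝ :=
  ⟨fun n => if (n : ℝ) ≤ V then (ArithmeticFunction.moebius n : ℝ) else 0, by simp⟩

private lemma vau_LU_apply (U : ℝ) (n : ℕ) :
    vau_LU U n = if (n : ℝ) ≤ U then ArithmeticFunction.vonMangoldt n else 0 := rfl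

private lemma vau_mV_apply (V : ℝ) (n : ℕ) :
    vau_mV V n = if (n : ℝ) ≤ V then (ArithmeticFunction.moebius n : ℝ) else 0 := rfl

private lemma vau_sub_apply (f g : ArithmeticFunction ℝ) (n : ℕ) :
    (f - g) n = f n - g n := by
  have h := congrArg (fun F : ArithmeticFunction ℝ => F n) (sub_add_cancel f g)
  simp only [ArithmeticFunction.add_apply] at h
  linarith

theorem VAU : S_VAU := by
  intro U V n hU hV hn hUn
  set L : ArithmeticFunction ℝ := ArithmeticFunction.vonMangoldt with hL
  set Z : ArithmeticFunction ℝ := (ArithmeticFunction.zeta : ArithmeticFunction ℝ) with hZ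
  set M : ArithmeticFunction ℝ := (ArithmeticFunction.moebius : ArithmeticFunction ℝ) with hM
  have h1 : M * Z = 1 := ArithmeticFunction.coe_moebius_mul_coe_zeta
  have h2 : L * Z = ArithmeticFunction.log := ArithmeticFunction.vonMangoldt_mul_zeta
  have key : L = vau_LU U + (vau_mV V * ArithmeticFunction.log - (vau_mV V * vau_LU U) * Z +
      ((M - vau_mV V) * Z) * (L - vau_LU U)) := by
    rw [← h2]
    have e : L - vau_LU U = (L - vau_LU U) * (M * Z) := by rw [h1, mul_one]
    have e2 : L = vau_LU U + (L - vau_LU U) := by ring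
    calc L = vau_LU U + (L - vau_LU U) := e2
      _ = vau_LU U + (L - vau_LU U) * (M * Z) := by rw [← e]
      _ = _ := by ring
  have key2 := congrArg (fun f : ArithmeticFunction ℝ => f n) key
  simp only [ArithmeticFunction.add_apply, vau_sub_apply] at key2
  rw [key2]
  have z1 : vau_LU U n = 0 := by
    rw [vau_LU_apply, if_neg (not_le.2 hUn)]
  rw [z1, zero_add]
  congr 1
  · congr 1
    · rw [ArithmeticFunction.mul_apply,
        Nat.sum_divisorsAntidiagonal (fun d e => vau_mV V d * ArithmeticFunction.log e)]
      refine Finset.sum_congr rfl ?_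
      intro d _
      rw [vau_mV_apply, ArithmeticFunction.log_apply]
      split_ifs <;> simp
    · rw [hZ, ArithmeticFunction.coe_mul_zeta_apply]
      refine Finset.sum_congr rfl ?_
      intro k hk
      rw [ArithmeticFunction.mul_apply,
        Nat.sum_divisorsAntidiagonal (fun d e => vau_mV V d * vau_LU U e)]
      split_ifs with h
      · refine Finset.sum_congr rfl ?_
        intro d _
        rw [vau_mV_apply, vau_LU_apply]
        by_cases a : (d : ℝ) ≤ V <;> by_cases b : ((k / d : ℕ) : ℝ) ≤ U <;> simp [a, b, hL]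
      · refine Finset.sum_eq_zero ?_
        intro d hd
        rw [vau_mV_apply, vau_LU_apply]
        by_cases a : (d : ℝ) ≤ V
        · by_cases b : ((k / d : ℕ) : ℝ) ≤ U
          · exfalso
            apply h
            have hdk : d * (k / d) = k := Nat.mul_div_cancel' (Nat.dvd_of_mem_divisors hd)
            have : (k : ℝ) = (d : ℝ) * ((k / d : ℕ) : ℝ) := by
              rw [← Nat.cast_mul, hdk]
            rw [this, mul_comm U V]
            exact mul_le_mul a b (Nat.cast_nonneg _) (by linarith)
          · simp [b]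
        · simp [a]
  · rw [ArithmeticFunction.mul_apply,
      Nat.sum_divisorsAntidiagonal (fun m e => ((M - vau_mV V) * Z) m * (L - vau_LU U) e)]
    refine Finset.sum_congr rfl ?_
    intro m hm
    have hm0 : m ≠ 0 := by
      rintro rfl
      simp at hm
    have e1 : ((M - vau_mV V) * Z) m = ∑ d ∈ m.divisors,
        if V < (d : ℝ) then (ArithmeticFunction.moebius d : ℝ) else 0 := by
      rw [hZ, ArithmeticFunction.coe_mul_zeta_apply]
      refine Finset.sum_congr rfl ?_
      intro d _
      rw [vau_sub_apply, vau_mV_apply, hM, ArithmeticFunction.intCoe_apply]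
      by_cases a : (d : ℝ) ≤ V
      · rw [if_pos a, if_neg (not_lt.2 a)]
        simp
      · rw [if_neg a, if_pos (not_le.1 a)]
        simp
    have e2 : (L - vau_LU U) (n / m) = if U < ((n / m : ℕ) : ℝ) then L (n / m) else 0 := by
      rw [vau_sub_apply, vau_LU_apply]
      by_cases a : ((n / m : ℕ) : ℝ) ≤ U
      · rw [if_pos a, if_neg (not_lt.2 a)]
        simp [hL]
      · rw [if_neg a, if_pos (not_le.1 a)]
        simp
    rw [e1, e2]
    by_cases a : V < (m : ℝ)
    · by_cases b : U < ((n / m : ℕ) : ℝ)
      · rw [if_pos b, if_pos ⟨a, b⟩]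
      · rw [if_neg b, if_neg (fun h => b h.2), mul_zero]
    · rw [if_neg (fun h : V < (m : ℝ) ∧ U < ((n / m : ℕ) : ℝ) => a h.1)]
      have : ∑ d ∈ m.divisors, (if V < (d : ℝ) then (ArithmeticFunction.moebius d : ℝ) else 0) =
          0 := by
        refine Finset.sum_eq_zero ?_
        intro d hd
        have : d ≤ m := Nat.divisor_le hd
        have : (d : ℝ) ≤ m := by exact_mod_cast this
        rw [if_neg (by linarith)]
      rw [this, zero_mul]

end MTA
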