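import Pool.Agent.H20.MT.Stmts

/-!
# Project MTA, module FINAL
-/

set_option autoImplicit false

namespace MTA

theorem FINAL (h : S_FIN) : S_FINAL := by
  refine Set.infinite_of_forall_exists_gt ?_
  intro N
  obtain ⟨p, q, h1, h2, h3, h4, h5, h6⟩ := h N
  exact ⟨p, ⟨h2, q, h3, h4, h5, h6⟩, h1⟩

end MTA
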