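import Pool.Agent.H20.MT.Stmts

/-!
# Project MTA, module LAM: size and support of the sieve weights
-/

set_option autoImplicit false

namespace MTA

open Finset

section
variable {P : Finset ℕ} {n : ℕ}

private lemma lam_Ls_none (p : ℕ) (a : Option (Fin (n + 1))) :
    |Ls n p a none| = if a.isSome then 1 / (p : ℝ) else 1 := by
  rcases a with _ | k
  · simp [Ls]
  · simp [Ls]

private lemma lam_Ls_some (p : ℕ) (a : Option (Fin (n + 1))) (l : Fin (n + 1))
    (h : Ls n p a (some l) ≠ 0) : a = some l ∧ |Ls n p a (some l)| = 1 := by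
  rcases a with _ | k
  · simp [Ls] at h
  · by_cases e : k = l
    · subst e
      simp [Ls]
    · simp [Ls, e] at h

private lemma lam_dvd (hP : ∀ p ∈ P, Nat.Prime p) (E : Cfg P n) (k : Fin (n + 1)) (p : ↥P) :
    (p : ℕ) ∣ rr E k ↔ E p = some k := by
  unfold rr
  constructor
  · intro h
    rw [Prime.dvd_finsetProd_iff (hP p p.2).prime] at h
    obtain ⟨q, -, hq⟩ := h
    split_ifs at hq with h1
    · have h2 : (p : ℕ) = q := (Nat.prime_dvd_prime_iff_eq (hP p p.2) (hP q q.2)).1 hq
      have h3 : p = q := Subtype.ext h2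
      rw [h3]
      exact h1
    · exact absurd (Nat.dvd_one.1 hq) (hP p p.2).one_lt.ne'
  · intro h
    have h1 : (if E p = some k then (p : ℕ) else 1) ∣
        ∏ q : ↥P, if E q = some k then (q : ℕ) else 1 :=
      Finset.dvd_prod_of_mem _ (Finset.mem_univ p)
    rw [if_pos h] at h1
    exact h1

private lemma lam_rr_pos (hP : ∀ p ∈ P, Nat.Prime p) (E : Cfg P n) (k : Fin (n + 1)) :
    1 ≤ rr E k := by
  unfold rr
  refine Nat.one_le_iff_ne_zero.2 (Finset.prod_ne_zero_iff.2 ?_)
  intro q _
  split_ifs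
  · exact (hP q q.2).ne_zero
  · exact one_ne_zero

private lemma lam_prod (f : ↥P → ℝ) (E : Cfg P n) :
    ∏ k : Fin (n + 1), ∏ p : ↥P, (if E p = some k then f p else 1) =
      ∏ p : ↥P, (if (E p).isSome then f p else 1) := by
  rw [Finset.prod_comm]
  refine Finset.prod_congr rfl ?_
  intro p _
  rcases h : E p with _ | l
  · simp
  · simp

private lemma lam_qq (E : Cfg P n) : (qq E : ℝ) = ∏ k : Fin (n + 1), (rr E k : ℝ) := by
  have h := lam_prod (fun p => ((p : ℕ) : ℝ)) E
  unfold qq rr
  push_cast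
  rw [h]

private lemma lam_inv (E : Cfg P n) :
    ∏ p : ↥P, (if (E p).isSome then 1 / ((p : ℕ) : ℝ) else 1) =
      ∏ k : Fin (n + 1), 1 / (rr E k : ℝ) := by
  rw [← lam_prod]
  refine Finset.prod_congr rfl ?_
  intro k _
  unfold rr
  push_cast
  rw [one_div, ← Finset.prod_inv_distrib]
  refine Finset.prod_congr rfl ?_
  intro p _
  split_ifs <;> simp

private lemma lam_mono {D E : Cfg P n} (hP : ∀ p ∈ P, Nat.Prime p) (k : Fin (n + 1))
    (h : ∀ p, D p = some k → E p = some k) : rr D k ≤ rr E k := by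
  unfold rr
  refine Finset.prod_le_prod' ?_
  intro p _
  by_cases h1 : D p = some k
  · rw [if_pos h1, if_pos (h p h1)]
  · rw [if_neg h1]
    split_ifs
    · exact (hP p p.2).one_lt.le
    · exact le_refl _

end

private lemma lam_harm (R : ℝ) (hR : 1 ≤ R) :
    ∑ a ∈ Icc 1 ⌊R⌋₊, 1 / (a : ℝ) ≤ 1 + Real.log R := by
  have h1 := harmonic_le_one_add_log ⌊R⌋₊
  rw [harmonic_eq_sum_Icc] at h1
  push_cast at h1
  have h2 : (1 : ℝ) ≤ (⌊R⌋₊ : ℝ) := by
    exact_mod_cast Nat.one_le_iff_ne_zero.2 (by
      intro h0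
      have := Nat.floor_pos.2 hR
      omega)
  have h3 : Real.log ⌊R⌋₊ ≤ Real.log R :=
    Real.log_le_log (by linarith) (Nat.floor_le (by linarith))
  calc ∑ a ∈ Icc 1 ⌊R⌋₊, 1 / (a : ℝ) = ∑ a ∈ Icc 1 ⌊R⌋₊, (a : ℝ)⁻¹ := by
        refine Finset.sum_congr rfl ?_
        intro a _
        rw [one_div]
    _ ≤ 1 + Real.log ⌊R⌋₊ := h1
    _ ≤ 1 + Real.log R := by linarith

theorem LAM : S_LAM := by
  intro W n Y R0 R V α hW hα hR0 hR D
  have hP : ∀ p ∈ PP W Y, Nat.Prime p := fun p hp => (Finset.mem_filter.1 hp).2.1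
  set y : Cfg (PP W Y) n → ℝ := yv R0 R V α with hy
  have hGG : ∀ a : ℕ, 1 ≤ a → 0 ≤ GG α V a ∧ GG α V a ≤ 1 := by
    intro a ha
    have hl : 0 ≤ Real.log a := Real.log_nonneg (by exact_mod_cast ha)
    unfold GG
    split_ifs
    · have h1 : (1 : ℝ) ≤ 1 + α * Real.log a := by nlinarith [mul_nonneg hα hl]
      constructor
      · positivity
      · rw [div_le_one (by linarith)]
        exact h1
    · exact ⟨le_refl _, zero_le_one⟩
  have hy1 : ∀ A, |y A| ≤ 1 := by
    intro A
    rw [hy]
    unfold yv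
    split_ifs
    · rw [abs_of_nonneg (Finset.prod_nonneg (fun k _ => (hGG _ (lam_rr_pos hP A k.succ)).1))]
      exact Finset.prod_le_one (fun k _ => (hGG _ (lam_rr_pos hP A k.succ)).1)
        (fun k _ => (hGG _ (lam_rr_pos hP A k.succ)).2)
    · simp
  have hy0 : ∀ A, y A ≠ 0 → (rr A 0 : ℝ) ≤ R0 ∧ (∏ k : Fin n, (rr A k.succ : ℝ)) ≤ R := by
    intro A hA
    rw [hy] at hA
    unfold yv at hA
    by_contra hcon
    exact hA (if_neg hcon)
  -- terms
  set term : Cfg (PP W Y) n → ℝ := fun A => y A * ∏ p : ↥(PP W Y), Ls n p (A p) (D p) with hterm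
  have hlam : lamv y D = ∑ A, term A := rfl
  have hext : ∀ A, term A ≠ 0 → ∀ p, ∀ l, D p = some l → A p = some l := by
    intro A hA p l hl
    have h1 : ∏ p : ↥(PP W Y), Ls n p (A p) (D p) ≠ 0 := right_ne_zero_of_mul hA
    have h2 := (Finset.prod_ne_zero_iff.1 h1) p (Finset.mem_univ p)
    rw [hl] at h2
    exact (lam_Ls_some _ _ _ h2).1
  refine ⟨?_, ?_⟩
  · set Ef : Cfg (PP W Y) n → Cfg (PP W Y) n := fun A p => if D p = none then A p else none with hEf
    set S := Finset.univ.filter (fun A => term A ≠ 0) with hS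
    set Rk : Fin (n + 1) → ℝ := fun k => Fin.cases R0 (fun _ => R) k with hRk
    have hbd : ∀ A ∈ S, |term A| ≤ ∏ k : Fin (n + 1), 1 / (rr (Ef A) k : ℝ) := by
      intro A hA
      have hA' : term A ≠ 0 := (Finset.mem_filter.1 hA).2
      rw [← lam_inv]
      rw [hterm]
      simp only
      rw [abs_mul, Finset.abs_prod]
      have h1 : ∏ p : ↥(PP W Y), |Ls n p (A p) (D p)| =
          ∏ p : ↥(PP W Y), (if (Ef A p).isSome then 1 / ((p : ℕ) : ℝ) else 1) := by
        refine Finset.prod_congr rfl ?_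
        intro p _
        rcases hD : D p with _ | l
        · rw [lam_Ls_none]
          simp [hEf, hD]
        · have h1 : ∏ p : ↥(PP W Y), Ls n p (A p) (D p) ≠ 0 := right_ne_zero_of_mul hA'
          have h2 := (Finset.prod_ne_zero_iff.1 h1) p (Finset.mem_univ p)
          rw [hD] at h2
          rw [(lam_Ls_some _ _ _ h2).2]
          simp [hEf, hD]
      rw [h1]
      have h2 : 0 ≤ ∏ p : ↥(PP W Y), (if (Ef A p).isSome then 1 / ((p : ℕ) : ℝ) else 1) := by
        refine Finset.prod_nonneg ?_
        intro p _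
        split_ifs
        · positivity
        · exact zero_le_one
      calc |y A| * ∏ p : ↥(PP W Y), (if (Ef A p).isSome then 1 / ((p : ℕ) : ℝ) else 1) ≤
          1 * ∏ p : ↥(PP W Y), (if (Ef A p).isSome then 1 / ((p : ℕ) : ℝ) else 1) :=
            mul_le_mul_of_nonneg_right (hy1 A) h2
        _ = _ := one_mul _
    have hinj : Set.InjOn (fun A => fun k => rr (Ef A) k) (S : Set (Cfg (PP W Y) n)) := by
      intro A hA B hB hAB
      have hA' : term A ≠ 0 := (Finset.mem_filter.1 (Finset.mem_coe.1 hA)).2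
      have hB' : term B ≠ 0 := (Finset.mem_filter.1 (Finset.mem_coe.1 hB)).2
      funext p
      rcases hD : D p with _ | l
      · have key : ∀ k, A p = some k ↔ B p = some k := by
          intro k
          have e1 : Ef A p = A p := by simp [hEf, hD]
          have e2 : Ef B p = B p := by simp [hEf, hD]
          rw [← e1, ← e2, ← lam_dvd hP, ← lam_dvd hP]
          have := congrFun hAB k
          simp only at this
          rw [this]
        rcases h1 : A p with _ | k
        · rcases h2 : B p with _ | k'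
          · rfl
          · have := (key k').2 h2
            rw [h1] at this
            exact absurd this (by simp)
        · exact ((key k).1 h1).symm
      · rw [hext A hA' p l hD, hext B hB' p l hD]
    have hmem : ∀ A ∈ S, (fun k => rr (Ef A) k) ∈
        Fintype.piFinset (fun k => Icc 1 ⌊Rk k⌋₊) := by
      intro A hA
      have hA' : term A ≠ 0 := (Finset.mem_filter.1 hA).2
      obtain ⟨g1, g2⟩ := hy0 A (left_ne_zero_of_mul hA')
      rw [Fintype.mem_piFinset]
      intro k
      rw [Finset.mem_Icc]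
      refine ⟨lam_rr_pos hP _ _, ?_⟩
      have h1 : rr (Ef A) k ≤ rr A k := by
        refine lam_mono hP k ?_
        intro p hp
        by_cases hD : D p = none
        · simpa [hEf, hD] using hp
        · simp [hEf, hD] at hp
      refine Nat.le_floor ?_
      have h2 : (rr (Ef A) k : ℝ) ≤ rr A k := by exact_mod_cast h1
      refine h2.trans ?_
      refine Fin.cases ?_ (fun j => ?_) k
      · exact g1
      · have h3 : rr A j.succ ∣ ∏ k : Fin n, rr A k.succ :=
          Finset.dvd_prod_of_mem (fun k : Fin n => rr A k.succ) (Finset.mem_univ j)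
        have h4 : rr A j.succ ≤ ∏ k : Fin n, rr A k.succ := by
          refine Nat.le_of_dvd (Nat.pos_of_ne_zero (Finset.prod_ne_zero_iff.2 ?_)) h3
          intro k _
          exact Nat.one_le_iff_ne_zero.1 (lam_rr_pos hP A k.succ)
        have h5 : (rr A j.succ : ℝ) ≤ ∏ k : Fin n, (rr A k.succ : ℝ) := by exact_mod_cast h4
        exact h5.trans g2
    have hsum : ∑ A, |term A| = ∑ A ∈ S, |term A| := by
      rw [hS, Finset.sum_filter]
      refine Finset.sum_congr rfl ?_
      intro A _
      by_cases h : term A = 0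
      · simp [h]
      · rw [if_pos h]
    calc |lamv y D| = |∑ A, term A| := by rw [hlam]
      _ ≤ ∑ A, |term A| := Finset.abs_sum_le_sum_abs _ _
      _ = ∑ A ∈ S, |term A| := hsum
      _ ≤ ∑ A ∈ S, ∏ k : Fin (n + 1), 1 / (rr (Ef A) k : ℝ) := Finset.sum_le_sum hbd
      _ = ∑ a ∈ S.image (fun A => fun k => rr (Ef A) k), ∏ k : Fin (n + 1), 1 / (a k : ℝ) := by
          rw [Finset.sum_image hinj]
      _ ≤ ∑ a ∈ Fintype.piFinset (fun k => Icc 1 ⌊Rk k⌋₊), ∏ k : Fin (n + 1), 1 / (a k : ℝ) := by
          refine Finset.sum_le_sum_of_subset_of_nonneg ?_ ?_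
          · intro a ha
            obtain ⟨A, hA, rfl⟩ := Finset.mem_image.1 ha
            exact hmem A hA
          · intro a _ _
            exact Finset.prod_nonneg (fun k _ => by positivity)
      _ = ∏ k : Fin (n + 1), ∑ a ∈ Icc 1 ⌊Rk k⌋₊, 1 / (a : ℝ) := by
          rw [Finset.prod_univ_sum]
      _ ≤ ∏ k : Fin (n + 1), (1 + Real.log (Rk k)) := by
          refine Finset.prod_le_prod (fun k _ => Finset.sum_nonneg (fun a _ => by positivity)) ?_
          intro k _
          refine lam_harm _ ?_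
          refine Fin.cases ?_ (fun j => ?_) k
          · exact hR0
          · exact hR
      _ = (1 + Real.log R0) * (1 + Real.log R) ^ n := by
          rw [Fin.prod_univ_succ]
          simp [hRk]
  · intro hne
    obtain ⟨A, -, hA⟩ := Finset.exists_ne_zero_of_sum_ne_zero (by rw [← hlam]; exact hne)
    obtain ⟨g1, g2⟩ := hy0 A (left_ne_zero_of_mul hA)
    have h1 : (qq D : ℝ) ≤ qq A := by
      rw [lam_qq, lam_qq]
      refine Finset.prod_le_prod (fun k _ => by positivity) ?_
      intro k _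
      exact_mod_cast lam_mono hP k (fun p hp => hext A hA p k hp)
    refine h1.trans ?_
    rw [lam_qq, Fin.prod_univ_succ]
    exact mul_le_mul g1 g2 (Finset.prod_nonneg (fun k _ => by positivity)) (by linarith)

end MTA
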