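import Pool.Agent.H20.MT.Stmts

/-!
# Project MTA, module WSUM
-/

set_option autoImplicit false

namespace MTA

open Finset

theorem WSUM (h1 : S_WS1) (h2 : S_WS2) : S_WSUM := by
  intro n hn
  obtain ⟨w1, k1⟩ := h1 n hn
  obtain ⟨w2, k2⟩ := h2 n hn
  refine ⟨max w1 w2, ?_⟩
  intro W hW hp Y R0 R V α hα hV hVR hVY hR0 hR0Y hA k
  have e1 := k1 W hW (fun p hp1 hp2 => hp p hp1 (hp2.trans (le_max_left _ _))) Y R0 R V α hα hV
    hVR hVY hR0 hR0Y hA k
  have e2 := k2 W hW (fun p hp1 hp2 => hp p hp1 (hp2.trans (le_max_right _ _))) Y R0 R V α hα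
    (by linarith) k
  refine le_trans ?_ e2
  calc 5 / 8 * Msum W R0 * (A2s W V α) ^ (n - 1) =
      15 / 16 * (2 / 3 * Msum W R0 * (A2s W V α) ^ (n - 1)) := by ring
    _ ≤ _ := mul_le_mul_of_nonneg_left e1 (by norm_num)

end MTA
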